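import Pool.Agent.R181.Eta2

/-!
# Zero total curvature of the functional `η` on discrete varieties

Proof idea: since singular vertices are not adjacent, all unit spheres of a `d`-variety are
`(d-1)`-graphs. Unit spheres of the Barycentric refinement have Euler characteristic `0` if `d` is
even. If `d` is odd they have Euler characteristic `2` for the faces with at least two vertices, and
the Dehn-Sommerville relation for the `(d-1)`-graph `S(x)` gives
`η(G) = ∑_x ∑_c 2 (1 / (|c| + 1) - (-1/2)^|c|)` (`c` runs through the nonempty complete subgraphs
of `S(x)`), where all terms are positive; hence `η(G) = 0` only if `G` has no edges.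
-/

set_option autoImplicit false

namespace Pool.Agent.Results.MP_dbf4ef_co.EtaZeroIff

open Finset Pool.Agent.R181.Eta
open scoped Classical

/-- `η(G)`, the sum of the Euler characteristics of the unit spheres of all vertices of the
Barycentric refinement `G_1`. -/
noncomputable def etaSum {V : Type} [Fintype V] (G : SimpleGraph V) : ℤ :=
  ∑ x : Face G, chi (refine G) (sph (refine G) univ x)

/-- For every `d ≥ 0` and every finite simple graph `G` which is a `d`-variety, `η(G) = 0` holds if
and only if `χ(S(x)) = 0` for all vertices `x` of the Barycentric refinement `G_1`.
(`IsVariety G (d + 1) univ` says that `G` is a `d`-variety.) -/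
theorem result (V : Type) [Fintype V] (G : SimpleGraph V) (d : ℕ)
    (hG : IsVariety G (d + 1) univ) :
    etaSum G = 0 ↔ ∀ x : Face G, chi (refine G) (sph (refine G) univ x) = 0 :=
  ⟨(main G d hG).2, fun h => Finset.sum_eq_zero fun x _ => h x⟩

end Pool.Agent.Results.MP_dbf4ef_co.EtaZeroIff
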